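import Pool.Agent.Helper99.SC.Basic

/-!
# Module SC4: the tripod lemma
-/

set_option autoImplicit false

namespace Pool.Agent.Helper99.SC

open Finset

namespace Drawing

variable {V : Type} (T : Drawing V)

theorem z2_self (x : ZMod 2) : x + x = 0 := by revert x; decide

theorem z2_ne (x : ZMod 2) : x ≠ 0 ↔ x = 1 := by revert x; decide

theorem z2_three (x y z : ZMod 2) (h : x + y + z = 0) : z = x + y := by
  revert h; revert x y z; decide

theorem z2_move (x y z : ZMod 2) (h : x + y = z) : x = z + y := by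
  revert h; revert x y z; decide

open Classical in
theorem tot_eq [Fintype T.Dart] (f : T.Dart → ZMod 2) (p : V ⊕ T.J) :
    T.tot f p = ∑ d ∈ univ.filter (fun d => T.base d = p), f d := by
  unfold tot
  rw [finsum_eq_sum_of_fintype, Finset.sum_filter]
  refine Finset.sum_congr rfl fun d _ => ?_
  rw [finsum_eq_if]

theorem alg_two (a0 a1 b0 b1 w0 w1 c0 e0 : ZMod 2) :
    (a0 * e0 + b0 * c0 + w0 * (c0 + e0) + (a0 * b0 + a0 * w0 + b0 * w0)) +
    (a1 * (e0 + (b1 + w1)) + b1 * (c0 + (a1 + w1)) +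
      w1 * ((c0 + (a1 + w1)) + (e0 + (b1 + w1))) + (a1 * b1 + a1 * w1 + b1 * w1)) +
    ((a0 + a1) * ((e0 + (b1 + w1)) + ((b0 + b1) + (w0 + w1))) +
      (b0 + b1) * ((c0 + (a1 + w1)) + ((a0 + a1) + (w0 + w1))) +
      (w0 + w1) * (((c0 + (a1 + w1)) + ((a0 + a1) + (w0 + w1))) +
        ((e0 + (b1 + w1)) + ((b0 + b1) + (w0 + w1)))) +
      ((a0 + a1) * (b0 + b1) + (a0 + a1) * (w0 + w1) + (b0 + b1) * (w0 + w1))) = 0 := by
  revert a0 a1 b0 b1 w0 w1 c0 e0
  decide

/-- the algebra at a junction -/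
theorem junction_alg (a0 a1 a2 b0 b1 b2 w0 w1 w2 y0 y1 y2 z0 z1 z2 c0 c1 c2 e0 e1 e2 : ZMod 2)
    (ha : a0 + a1 + a2 = 0) (hb : b0 + b1 + b2 = 0) (hw : w0 + w1 + w2 = 0)
    (hc1 : c1 = c0 + y1) (hc2 : c2 = c1 + y2) (he1 : e1 = e0 + z1) (he2 : e2 = e1 + z2)
    (hA : a0 ≠ 0 ∨ a1 ≠ 0 ∨ a2 ≠ 0 → z0 = b0 + w0 ∧ z1 = b1 + w1 ∧ z2 = b2 + w2)
    (hB : b0 ≠ 0 ∨ b1 ≠ 0 ∨ b2 ≠ 0 → y0 = a0 + w0 ∧ y1 = a1 + w1 ∧ y2 = a2 + w2)
    (hW : w0 ≠ 0 ∨ w1 ≠ 0 ∨ w2 ≠ 0 →
      y0 + z0 = a0 + b0 ∧ y1 + z1 = a1 + b1 ∧ y2 + z2 = a2 + b2) :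
    (a0 * e0 + b0 * c0 + w0 * (c0 + e0) + (a0 * b0 + a0 * w0 + b0 * w0)) +
    (a1 * e1 + b1 * c1 + w1 * (c1 + e1) + (a1 * b1 + a1 * w1 + b1 * w1)) +
    (a2 * e2 + b2 * c2 + w2 * (c2 + e2) + (a2 * b2 + a2 * w2 + b2 * w2)) = 0 := by
  have ha2 := z2_three _ _ _ ha
  have hb2 := z2_three _ _ _ hb
  have hw2 := z2_three _ _ _ hw
  -- the generic conclusion
  have fin : y1 = a1 + w1 → y2 = a2 + w2 → z1 = b1 + w1 → z2 = b2 + w2 →
      (a0 * e0 + b0 * c0 + w0 * (c0 + e0) + (a0 * b0 + a0 * w0 + b0 * w0)) +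
      (a1 * e1 + b1 * c1 + w1 * (c1 + e1) + (a1 * b1 + a1 * w1 + b1 * w1)) +
      (a2 * e2 + b2 * c2 + w2 * (c2 + e2) + (a2 * b2 + a2 * w2 + b2 * w2)) = 0 := by
    intro h1 h2 h3 h4
    rw [hc2, he2, hc1, he1, h1, h2, h3, h4, ha2, hb2, hw2]
    exact alg_two a0 a1 b0 b1 w0 w1 c0 e0
  by_cases A : a0 ≠ 0 ∨ a1 ≠ 0 ∨ a2 ≠ 0
  · obtain ⟨q0, q1, q2⟩ := hA A
    by_cases B : b0 ≠ 0 ∨ b1 ≠ 0 ∨ b2 ≠ 0
    · obtain ⟨r0, r1, r2⟩ := hB B
      exact fin r1 r2 q1 q2
    · push Not at B
      obtain ⟨B0, B1, B2⟩ := B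
      by_cases W : w0 ≠ 0 ∨ w1 ≠ 0 ∨ w2 ≠ 0
      · obtain ⟨r0, r1, r2⟩ := hW W
        refine fin ?_ ?_ q1 q2
        · rw [z2_move _ _ _ r1, q1, B1]; abel
        · rw [z2_move _ _ _ r2, q2, B2]; abel
      · push Not at W
        obtain ⟨W0, W1, W2⟩ := W
        rw [he2, he1, q1, q2, ha2, B0, B1, B2, W0, W1, W2]
        linear_combination z2_self (a0 * e0 + a1 * e0)
  · push Not at A
    obtain ⟨A0, A1, A2⟩ := A
    by_cases B : b0 ≠ 0 ∨ b1 ≠ 0 ∨ b2 ≠ 0
    · obtain ⟨q0, q1, q2⟩ := hB B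
      by_cases W : w0 ≠ 0 ∨ w1 ≠ 0 ∨ w2 ≠ 0
      · obtain ⟨r0, r1, r2⟩ := hW W
        refine fin q1 q2 ?_ ?_
        · rw [z2_move _ _ _ ((add_comm _ _).trans r1), q1, A1]; abel
        · rw [z2_move _ _ _ ((add_comm _ _).trans r2), q2, A2]; abel
      · push Not at W
        obtain ⟨W0, W1, W2⟩ := W
        rw [hc2, hc1, q1, q2, hb2, A0, A1, A2, W0, W1, W2]
        linear_combination z2_self (b0 * c0 + b1 * c0)
    · push Not at B
      obtain ⟨B0, B1, B2⟩ := B
      by_cases W : w0 ≠ 0 ∨ w1 ≠ 0 ∨ w2 ≠ 0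
      · obtain ⟨r0, r1, r2⟩ := hW W
        have s1 : c1 + e1 = c0 + e0 := by
          rw [hc1, he1]
          linear_combination r1 + A1 + B1
        have s2 : c2 + e2 = c0 + e0 := by
          rw [hc2, he2]
          linear_combination r2 + A2 + B2 + s1
        rw [s1, s2, hw2, A0, A1, A2, B0, B1, B2]
        linear_combination z2_self (w0 * (c0 + e0) + w1 * (c0 + e0))
      · push Not at W
        obtain ⟨W0, W1, W2⟩ := W
        rw [A0, A1, A2, B0, B1, B2, W0, W1, W2]
        simp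

theorem base_rot (d : T.Dart) : T.base (T.rot d) = T.base d :=
  ((T.sameCycle d (T.rot d)).1 (Equiv.Perm.SameCycle.refl _ _).apply_right).symm

theorem base_rot_pow (d : T.Dart) (k : ℕ) : T.base ((T.rot ^ k) d) = T.base d := by
  induction k with
  | zero => simp
  | succ k ih => rw [pow_succ', Equiv.Perm.mul_apply, T.base_rot, ih]

theorem exists_pow {d e : T.Dart} (h : T.base d = T.base e) : ∃ k : ℕ, (T.rot ^ k) d = e := by
  have := T.finDart
  exact ((T.sameCycle d e).2 h).exists_nat_pow_eq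

open Classical in
theorem junction_darts [Fintype T.Dart] (j : T.J) : ∃ d0 : T.Dart, d0 ≠ T.rot d0 ∧
    d0 ≠ T.rot (T.rot d0) ∧ T.rot d0 ≠ T.rot (T.rot d0) ∧
    univ.filter (fun d => T.base d = Sum.inr j) = {d0, T.rot d0, T.rot (T.rot d0)} := by
  have hcard : (univ.filter (fun d => T.base d = Sum.inr j)).card = 3 := by
    have := T.degree j
    rw [Nat.card_eq_fintype_card, Fintype.card_subtype] at this
    exact this
  set d0 := T.stem j with hd0
  have hb0 : T.base d0 = Sum.inr j := T.base_stem j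
  have hpow : ∀ d, T.base d = Sum.inr j → ∃ k : ℕ, (T.rot ^ k) d0 = d := fun d hd =>
    T.exists_pow (by rw [hb0, hd])
  have h1 : d0 ≠ T.rot d0 := by
    intro h
    have hall : ∀ k : ℕ, (T.rot ^ k) d0 = d0 := by
      intro k
      induction k with
      | zero => simp
      | succ k ih => rw [pow_succ', Equiv.Perm.mul_apply, ih, ← h]
    have hsub : univ.filter (fun d => T.base d = Sum.inr j) ⊆ {d0} := by
      intro d hd
      obtain ⟨k, hk⟩ := hpow d (by simpa using hd)
      rw [hall k] at hk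
      simp [hk]
    have := Finset.card_le_card hsub
    rw [hcard, card_singleton] at this
    omega
  have h2 : d0 ≠ T.rot (T.rot d0) := by
    intro h
    have hall : ∀ k : ℕ, (T.rot ^ k) d0 = d0 ∨ (T.rot ^ k) d0 = T.rot d0 := by
      intro k
      induction k with
      | zero => simp
      | succ k ih =>
        rw [pow_succ', Equiv.Perm.mul_apply]
        rcases ih with ih | ih
        · right; rw [ih]
        · left; rw [ih, ← h]
    have hsub : univ.filter (fun d => T.base d = Sum.inr j) ⊆ {d0, T.rot d0} := by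
      intro d hd
      obtain ⟨k, hk⟩ := hpow d (by simpa using hd)
      rcases hall k with h3 | h3 <;> rw [h3] at hk <;> simp [← hk]
    have := Finset.card_le_card hsub
    rw [hcard] at this
    have := this.trans (Finset.card_le_two)
    omega
  have h3 : T.rot d0 ≠ T.rot (T.rot d0) := fun h => h1 (T.rot.injective h)
  refine ⟨d0, h1, h2, h3, (Finset.eq_of_subset_of_card_le ?_ ?_).symm⟩
  · intro d hd
    simp only [mem_insert, mem_singleton] at hd
    simp only [mem_filter, mem_univ, true_and]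
    rcases hd with rfl | rfl | rfl
    · exact hb0
    · rw [T.base_rot]; exact hb0
    · rw [T.base_rot, T.base_rot]; exact hb0
  · rw [hcard, Finset.card_insert_of_notMem (by simp [h1, h2]),
      Finset.card_insert_of_notMem (by simp [h3]), card_singleton]

theorem pow_inj {D : Type} (σ : Equiv.Perm D) (x : D) (i k : ℕ)
    (hi : ∀ t < i, (σ ^ t) x ≠ (σ ^ i) x) (hk : ∀ t < k, (σ ^ t) x ≠ (σ ^ k) x) :
    ∀ t ≤ max i k, ∀ u ≤ max i k, (σ ^ t) x = (σ ^ u) x → t = u := by
  have hM : ∀ t < max i k, (σ ^ t) x ≠ (σ ^ (max i k)) x := by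
    rcases le_total i k with h | h
    · rw [max_eq_right h]; exact hk
    · rw [max_eq_left h]; exact hi
  have key : ∀ t u, t < u → u ≤ max i k → (σ ^ t) x ≠ (σ ^ u) x := by
    intro t u htu hu h
    apply hM (max i k - u + t) (by omega)
    rw [pow_add, Equiv.Perm.mul_apply, h, ← Equiv.Perm.mul_apply, ← pow_add]
    congr 2
    omega
  intro t ht u hu h
  rcases lt_trichotomy t u with h1 | h1 | h1
  · exact absurd h (key t u h1 hu)
  · exact h1
  · exact absurd h.symm (key u t h1 ht)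

theorem ind_sum {D : Type} (S : Finset D) (x : D) (hx : x ∈ S) (a g : D → ZMod 2)
    (ha : ∀ d ∈ S, (a d = 1 ↔ d = x)) : ∑ d ∈ S, a d * g d = g x := by
  rw [Finset.sum_eq_single x]
  · rw [(ha x hx).2 rfl, one_mul]
  · intro d hd hdx
    have : a d = 0 := by
      by_contra h
      exact hdx ((ha d hd).1 ((z2_ne _).1 h))
    rw [this, zero_mul]
  · intro h; exact absurd hx h

/-- the three darts at `s` -/
theorem vertex_core (s : V) (a b w y₁ y₂ χ₁ χ₂ : T.Dart → ZMod 2) (a₀ b₀ w₀ : T.Dart)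
    (ha₀ : T.base a₀ = Sum.inl s) (hb₀ : T.base b₀ = Sum.inl s) (hw₀ : T.base w₀ = Sum.inl s)
    (ha : ∀ d, T.base d = Sum.inl s → (a d = 1 ↔ d = a₀))
    (hb : ∀ d, T.base d = Sum.inl s → (b d = 1 ↔ d = b₀))
    (hw : ∀ d, T.base d = Sum.inl s → (w d = 1 ↔ d = w₀))
    (h1 : IsPot T.rot T.rev y₁ χ₁) (h2 : IsPot T.rot T.rev y₂ χ₂)
    (hy₁ : ∀ e, T.base e = Sum.inl s → y₁ e = a e + w e)
    (hy₂ : ∀ e, T.base e = Sum.inl s → y₂ e = b e + w e) :
    χ₂ a₀ + χ₁ b₀ + (χ₁ w₀ + χ₂ w₀) + (b a₀ + w a₀ + w b₀) = 1 := by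
  classical
  have ha' : ∀ d, T.base d = Sum.inl s → a d = if d = a₀ then 1 else 0 := by
    intro d hd
    split_ifs with h
    · exact (ha d hd).2 h
    · by_contra h'
      exact h ((ha d hd).1 ((z2_ne _).1 h'))
  have hb' : ∀ d, T.base d = Sum.inl s → b d = if d = b₀ then 1 else 0 := by
    intro d hd
    split_ifs with h
    · exact (hb d hd).2 h
    · by_contra h'
      exact h ((hb d hd).1 ((z2_ne _).1 h'))
  have hw' : ∀ d, T.base d = Sum.inl s → w d = if d = w₀ then 1 else 0 := by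
    intro d hd
    split_ifs with h
    · exact (hw d hd).2 h
    · by_contra h'
      exact h ((hw d hd).1 ((z2_ne _).1 h'))
  rw [hb' a₀ ha₀, hw' a₀ ha₀, hw' b₀ hb₀]
  by_cases hwa : a₀ = w₀
  · have e1 : χ₁ b₀ = χ₁ w₀ := by
      refine T.pot_const h1 (p := Sum.inl s) (fun d hd => ?_) hb₀ hw₀
      rw [hy₁ d hd, ha' d hd, hw' d hd, hwa]
      exact z2_self _
    rw [e1, hwa]
    simp only [if_true, @eq_comm _ b₀ w₀]
    linear_combination z2_self (χ₁ w₀ + χ₂ w₀) + z2_self (if w₀ = b₀ then (1 : ZMod 2) else 0)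
  by_cases hwb : b₀ = w₀
  · have e1 : χ₂ a₀ = χ₂ w₀ := by
      refine T.pot_const h2 (p := Sum.inl s) (fun d hd => ?_) ha₀ hw₀
      rw [hy₂ d hd, hb' d hd, hw' d hd, hwb]
      exact z2_self _
    rw [e1, hwb, if_neg hwa, if_pos rfl]
    linear_combination z2_self (χ₁ w₀ + χ₂ w₀)
  rw [if_neg hwa, if_neg hwb]
  -- generic case
  have exa := T.exists_pow (d := w₀) (e := a₀) (by rw [hw₀, ha₀])
  have exb := T.exists_pow (d := w₀) (e := b₀) (by rw [hw₀, hb₀])
  set i := Nat.find exa with hi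
  set k := Nat.find exb with hk
  have hi1 : (T.rot ^ i) w₀ = a₀ := Nat.find_spec exa
  have hk1 : (T.rot ^ k) w₀ = b₀ := Nat.find_spec exb
  have hinj := pow_inj T.rot w₀ i k
    (fun t ht h => Nat.find_min exa ht (by rw [h, hi1]))
    (fun t ht h => Nat.find_min exb ht (by rw [h, hk1]))
  have hi0 : i ≠ 0 := by
    intro h
    rw [h] at hi1
    exact hwa (by simpa using hi1.symm)
  have hk0 : k ≠ 0 := by
    intro h
    rw [h] at hk1
    exact hwb (by simpa using hk1.symm)
  have hbase : ∀ t : ℕ, T.base ((T.rot ^ t) w₀) = Sum.inl s := fun t => by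
    rw [T.base_rot_pow, hw₀]
  have step2 : ∀ t ≤ max i k, χ₂ ((T.rot ^ t) w₀) = χ₂ w₀ + if k ≤ t then 1 else 0 := by
    intro t
    induction t with
    | zero => intro _; simp [hk0]
    | succ t ih =>
      intro ht
      have h3 := h2.2 ((T.rot ^ t) w₀)
      rw [← Equiv.Perm.mul_apply, ← pow_succ'] at h3
      rw [h3, ih (by omega), hy₂ _ (hbase _), hb' _ (hbase _), hw' _ (hbase _)]
      have h4 : ¬ (T.rot ^ (t + 1)) w₀ = w₀ := fun h => by
        have := hinj (t + 1) ht 0 (by omega) (by simpa using h)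
        omega
      have h5 : (T.rot ^ (t + 1)) w₀ = b₀ ↔ t + 1 = k := by
        constructor
        · intro h
          exact hinj (t + 1) ht k (by omega) (by rw [h, hk1])
        · intro h; rw [h, hk1]
      rw [if_neg h4]
      simp only [h5]
      split_ifs <;> first | omega | simp
  have step1 : ∀ t ≤ max i k, χ₁ ((T.rot ^ t) w₀) = χ₁ w₀ + if i ≤ t then 1 else 0 := by
    intro t
    induction t with
    | zero => intro _; simp [hi0]
    | succ t ih =>
      intro ht
      have h3 := h1.2 ((T.rot ^ t) w₀)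
      rw [← Equiv.Perm.mul_apply, ← pow_succ'] at h3
      rw [h3, ih (by omega), hy₁ _ (hbase _), ha' _ (hbase _), hw' _ (hbase _)]
      have h4 : ¬ (T.rot ^ (t + 1)) w₀ = w₀ := fun h => by
        have := hinj (t + 1) ht 0 (by omega) (by simpa using h)
        omega
      have h5 : (T.rot ^ (t + 1)) w₀ = a₀ ↔ t + 1 = i := by
        constructor
        · intro h
          exact hinj (t + 1) ht i (by omega) (by rw [h, hi1])
        · intro h; rw [h, hi1]
      rw [if_neg h4]
      simp only [h5]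
      split_ifs <;> first | omega | simp
  have ea := step2 i (le_max_left _ _)
  have eb := step1 k (le_max_right _ _)
  rw [hi1] at ea
  rw [hk1] at eb
  have eab : a₀ = b₀ ↔ i = k := by
    constructor
    · intro h
      exact hinj i (le_max_left _ _) k (le_max_right _ _) (by rw [hi1, hk1, h])
    · intro h; rw [← hi1, ← hk1, h]
  rw [ea, eb]
  simp only [eab]
  have e2 := z2_self (χ₁ w₀ + χ₂ w₀)
  rcases lt_trichotomy i k with h | h | h
  · rw [if_neg (by omega), if_pos (by omega), if_neg (by omega)]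
    linear_combination e2
  · rw [if_pos (by omega), if_pos (by omega), if_pos h]
    linear_combination e2 + z2_self 1
  · rw [if_pos (by omega), if_neg (by omega), if_neg (by omega)]
    linear_combination e2

end Drawing

open Drawing in
/-- MODULE SC4 -/
theorem sc_tripod : M_tripod := by
  classical
  intro V T s cA cB a b w y₁ y₂ χ₁ χ₂ m a₀ b₀ w₀ α β hsA hsB hAB ha₀ hb₀ hw₀ harev hbrev hwrev
    hwm ham hbm hja hjb hjw has hbs hws hta htb hva hvb hvw h1 h2 hy2 hy1 hyw hchA hchB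
  have := T.finDart
  have : Fintype T.Dart := Fintype.ofFinite _
  -- chains of potentials are symmetric
  have y1rev : ∀ d, y₁ (T.rev d) = y₁ d := by
    intro d
    have e1 := h1.1 d
    have e2 := h1.1 (T.rev d)
    rw [T.rev_rev, e1] at e2
    linear_combination z2_self (y₁ (T.rev d)) + e2
  have y2rev : ∀ d, y₂ (T.rev d) = y₂ d := by
    intro d
    have e1 := h2.1 d
    have e2 := h2.1 (T.rev d)
    rw [T.rev_rev, e1] at e2
    linear_combination z2_self (y₂ (T.rev d)) + e2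
  -- pointwise identities
  have pa : ∀ d, a d * y₂ d = a d * (b d + w d) := by
    intro d
    by_cases h : a d = 0
    · rw [h]; ring
    · rw [hy2 d d h rfl]
  have pb : ∀ d, b d * y₁ d = b d * (a d + w d) := by
    intro d
    by_cases h : b d = 0
    · rw [h]; ring
    · rw [hy1 d d h rfl]
  have pw : ∀ d, w d * (y₁ d + y₂ d) = w d * (a d + b d) := by
    intro d
    by_cases h : w d = 0
    · rw [h]; ring
    · rw [hyw d d h rfl]
  have ym : y₁ m + y₂ m = 0 := by
    by_cases h : w m = 0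
    · have h' : w (T.rev m) ≠ 0 := by rw [hwm, h]; decide
      have := hyw (T.rev m) (T.rev m) h' rfl
      rw [y1rev, y2rev, harev, hbrev, ham, hbm] at this
      rw [this]; ring
    · rw [hyw m m h rfl, ham, hbm]; ring
  set h : T.Dart → ZMod 2 := fun d => a d * χ₂ d + b d * χ₁ d + w d * (χ₁ d + χ₂ d) +
    (a d * b d + a d * w d + b d * w d) with hh
  -- the total sum
  have tot1 : ∑ d, h d = χ₁ m + χ₂ m := by
    have key : ∑ d, (h d + if d = m then χ₁ m + χ₂ m else 0) = 0 := by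
      have pairm : h m + h (T.rev m) = χ₁ m + χ₂ m := by
        simp only [hh]
        rw [harev, hbrev, ham, hbm, hwm, h1.1, h2.1]
        linear_combination (w m + 1) * ym + z2_self (w m * (χ₁ m + χ₂ m))
      refine Finset.sum_involution (fun d _ => T.rev d) ?_ ?_ (fun d _ => mem_univ _)
        (fun d _ => T.rev_rev d)
      · intro d _
        by_cases hd : d = m
        · rw [if_pos hd, hd, if_neg (T.rev_ne m)]
          linear_combination pairm + z2_self (χ₁ m + χ₂ m)
        · by_cases hd' : T.rev d = m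
          · have hdm : d = T.rev m := by rw [← hd', T.rev_rev]
            rw [if_neg hd, if_pos hd', hd', hdm]
            linear_combination pairm + z2_self (χ₁ m + χ₂ m)
          · rw [if_neg hd, if_neg hd']
            simp only [hh]
            rw [harev, hbrev, hwrev d hd hd', h1.1, h2.1]
            linear_combination pa d + pb d + pw d + z2_self (a d * χ₂ d + b d * χ₁ d +
              w d * (χ₁ d + χ₂ d) + (a d * b d + a d * w d + b d * w d)) +
              z2_self (a d * b d + a d * w d + b d * w d)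
      · intro d _ _
        exact T.rev_ne d
    rw [sum_add_distrib, Finset.sum_ite_eq' univ m, if_pos (mem_univ _)] at key
    exact (z2_move _ _ _ key).trans (zero_add _)
  -- local sums
  set L : V ⊕ T.J → ZMod 2 := fun p => ∑ d ∈ univ.filter (fun d => T.base d = p), h d with hL
  have Lj : ∀ j, L (Sum.inr j) = 0 := by
    intro j
    obtain ⟨d0, n1, n2, n3, hset⟩ := T.junction_darts j
    have b0 : T.base d0 = Sum.inr j := by
      have : d0 ∈ univ.filter (fun d => T.base d = Sum.inr j) := by rw [hset]; simp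
      simpa using this
    have b1 : T.base (T.rot d0) = Sum.inr j := by rw [T.base_rot, b0]
    have b2 : T.base (T.rot (T.rot d0)) = Sum.inr j := by rw [T.base_rot, b1]
    have expand : ∀ f : T.Dart → ZMod 2,
        ∑ d ∈ univ.filter (fun d => T.base d = Sum.inr j), f d =
          f d0 + f (T.rot d0) + f (T.rot (T.rot d0)) := by
      intro f
      rw [hset, Finset.sum_insert (by simp [n1, n2]), Finset.sum_insert (by simp [n3]),
        Finset.sum_singleton, add_assoc]
    have ta := hja j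
    have tb := hjb j
    have tw := hjw j
    rw [T.tot_eq, expand] at ta tb tw
    simp only [hL, expand, hh]
    refine junction_alg (a d0) (a (T.rot d0)) (a (T.rot (T.rot d0)))
      (b d0) (b (T.rot d0)) (b (T.rot (T.rot d0)))
      (w d0) (w (T.rot d0)) (w (T.rot (T.rot d0)))
      (y₁ d0) (y₁ (T.rot d0)) (y₁ (T.rot (T.rot d0)))
      (y₂ d0) (y₂ (T.rot d0)) (y₂ (T.rot (T.rot d0))) _ _ _ _ _ _
      ta tb tw (h1.2 _) (h1.2 _) (h2.2 _) (h2.2 _) ?_ ?_ ?_
    · rintro (hne | hne | hne)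
      · exact ⟨hy2 _ _ hne rfl, hy2 _ _ hne (by rw [b1, b0]), hy2 _ _ hne (by rw [b2, b0])⟩
      · exact ⟨hy2 _ _ hne (by rw [b1, b0]), hy2 _ _ hne rfl, hy2 _ _ hne (by rw [b1, b2])⟩
      · exact ⟨hy2 _ _ hne (by rw [b2, b0]), hy2 _ _ hne (by rw [b1, b2]), hy2 _ _ hne rfl⟩
    · rintro (hne | hne | hne)
      · exact ⟨hy1 _ _ hne rfl, hy1 _ _ hne (by rw [b1, b0]), hy1 _ _ hne (by rw [b2, b0])⟩
      · exact ⟨hy1 _ _ hne (by rw [b1, b0]), hy1 _ _ hne rfl, hy1 _ _ hne (by rw [b1, b2])⟩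
      · exact ⟨hy1 _ _ hne (by rw [b2, b0]), hy1 _ _ hne (by rw [b1, b2]), hy1 _ _ hne rfl⟩
    · rintro (hne | hne | hne)
      · exact ⟨hyw _ _ hne rfl, hyw _ _ hne (by rw [b1, b0]), hyw _ _ hne (by rw [b2, b0])⟩
      · exact ⟨hyw _ _ hne (by rw [b1, b0]), hyw _ _ hne rfl, hyw _ _ hne (by rw [b1, b2])⟩
      · exact ⟨hyw _ _ hne (by rw [b2, b0]), hyw _ _ hne (by rw [b1, b2]), hyw _ _ hne rfl⟩
  have Ls : L (Sum.inl s) = 1 := by
    have mem : ∀ d, d ∈ univ.filter (fun d => T.base d = Sum.inl s) ↔ T.base d = Sum.inl s := by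
      intro d; simp
    have i1 := fun g => ind_sum _ a₀ ((mem _).2 ha₀) a g (fun d hd => has d ((mem _).1 hd))
    have i2 := fun g => ind_sum _ b₀ ((mem _).2 hb₀) b g (fun d hd => hbs d ((mem _).1 hd))
    have i3 := fun g => ind_sum _ w₀ ((mem _).2 hw₀) w g (fun d hd => hws d ((mem _).1 hd))
    simp only [hL, hh, sum_add_distrib]
    rw [i1 χ₂, i2 χ₁, i1 b, i1 w, i2 w, i3 (fun d => χ₁ d + χ₂ d)]
    refine T.vertex_core s a b w y₁ y₂ χ₁ χ₂ a₀ b₀ w₀ ha₀ hb₀ hw₀ has hbs hws h1 h2 ?_ ?_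
    · intro e he
      exact hy1 b₀ e (by rw [(hbs b₀ hb₀).2 rfl]; decide) (by rw [he, hb₀])
    · intro e he
      exact hy2 a₀ e (by rw [(has a₀ ha₀).2 rfl]; decide) (by rw [he, ha₀])
  have LA : L (Sum.inl cA) = β := by
    have : L (Sum.inl cA) = T.tot a (Sum.inl cA) * β := by
      simp only [hL]
      rw [T.tot_eq, Finset.sum_mul]
      refine Finset.sum_congr rfl fun d hd => ?_
      have hd' : T.base d = Sum.inl cA := by simpa using hd
      simp only [hh]
      rw [hvb d cA hd' hsA.symm hAB, hvw d cA hd' hsA.symm, hchA d hd']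
      ring
    rw [this, hta, one_mul]
  have LB : L (Sum.inl cB) = α := by
    have : L (Sum.inl cB) = T.tot b (Sum.inl cB) * α := by
      simp only [hL]
      rw [T.tot_eq, Finset.sum_mul]
      refine Finset.sum_congr rfl fun d hd => ?_
      have hd' : T.base d = Sum.inl cB := by simpa using hd
      simp only [hh]
      rw [hva d cB hd' hsB.symm hAB.symm, hvw d cB hd' hsB.symm, hchB d hd']
      ring
    rw [this, htb, one_mul]
  have Lv : ∀ v, v ≠ s → v ≠ cA → v ≠ cB → L (Sum.inl v) = 0 := by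
    intro v v1 v2 v3
    simp only [hL]
    refine Finset.sum_eq_zero fun d hd => ?_
    have hd' : T.base d = Sum.inl v := by simpa using hd
    simp only [hh]
    rw [hva d v hd' v1 v2, hvb d v hd' v1 v3, hvw d v hd' v1]
    ring
  -- group by base points
  have group : ∑ d, h d = L (Sum.inl s) + L (Sum.inl cA) + L (Sum.inl cB) := by
    set I : Finset (V ⊕ T.J) := univ.image T.base ∪ {Sum.inl s, Sum.inl cA, Sum.inl cB} with hI
    have e1 : ∑ d, h d = ∑ p ∈ I, L p := by
      simp only [hL]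
      rw [Finset.sum_fiberwise_of_maps_to (s := (univ : Finset T.Dart)) (t := I)
        (g := T.base) (fun d _ => by simp [hI])]
    have e2 : ∑ p ∈ I, L p = ∑ p ∈ ({Sum.inl s, Sum.inl cA, Sum.inl cB} : Finset (V ⊕ T.J)), L p := by
      symm
      refine Finset.sum_subset (by rw [hI]; exact Finset.subset_union_right) ?_
      intro p _ hp
      simp only [mem_insert, mem_singleton, not_or] at hp
      rcases p with v | j
      · exact Lv v (fun h => hp.1 (by rw [h])) (fun h => hp.2.1 (by rw [h]))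
          (fun h => hp.2.2 (by rw [h]))
      · exact Lj j
    rw [e1, e2, Finset.sum_insert (by simp [hsA, hsB]), Finset.sum_insert (by simp [hAB]),
      Finset.sum_singleton, add_assoc]
  rw [← tot1, group, Ls, LA, LB]
  ring

end Pool.Agent.Helper99.SC
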